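import Pool.Agent.MP_bd94e8_al.H89.Spec

/-! The Gram matrix of a thin directed problem. -/

set_option autoImplicit false
set_option linter.unusedSectionVars false

namespace Pool.Agent.MP_bd94e8_al.H89

open Module Function

namespace GramA
variable {k F : Type} [Field k] [Field F] [Algebra k F] {Pt ι Ω : Type} [Fintype Pt]
  [DecidableEq Pt] {J : Prob k F Pt ι Ω} {L : ℕ}

/-- The block space as a space over `F`. -/
def HF (hs : ∀ (c : F), ∀ b ∈ J.B, c • b ∈ J.B) (i j : ι) : Submodule F (Matrix Pt Pt F) where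
  carrier := {b | b ∈ J.H i j}
  add_mem' := fun ha hb => (J.H i j).add_mem ha hb
  zero_mem' := (J.H i j).zero_mem
  smul_mem' := fun c b hb => ⟨hs c b hb.1, fun q p h => hb.2 q p fun e => h (by simp [e])⟩

theorem rank_H (hs : ∀ (c : F), ∀ b ∈ J.B, c • b ∈ J.B) (i j : ι) :
    finrank k (J.H i j) = finrank k F * finrank F (HF hs i j) := by
  rw [finrank_mul_finrank k F (HF hs i j)]
  have e : J.H i j = (HF hs i j).restrictScalars k := by ext b; rfl
  rw [e]
  rfl

theorem e_In (i : ι) : J.In i i (J.e i) := by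
  intro q p h
  have hp : J.vt p = i := by
    by_contra e
    exact h (J.e_neg q e)
  have hq : q = p := by
    by_contra e
    exact h (J.e_off i e)
  exact ⟨hp, hq ▸ hp⟩

theorem e_self {i : ι} {p : Pt} (h : J.vt p = i) : J.e i p p = 1 := by
  rw [J.e_pos p h, Matrix.one_apply_eq]

theorem e_mul (i : ι) : J.e i * J.e i = J.e i := by
  have h := J.blk_eq i i 1
  rw [mul_one] at h
  rw [← h]
  ext q p
  by_cases hp : J.vt p = i
  · by_cases hq : J.vt q = i
    · rw [J.blk_pos _ hp hq, J.e_pos _ hp]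
    · rw [J.blk_neg _ fun h => hq h.2, J.e_off i fun e : q = p => hq (e ▸ hp)]
  · rw [J.blk_neg _ fun h => hp h.1, J.e_neg _ hp]

theorem scalar (hT : ThinDir J L) {i : ι} {b : Matrix Pt Pt F} (hb : b ∈ J.H i i) :
    ∃ c : F, b = c • J.e i := by
  obtain ⟨p0, h0⟩ := hT.surj i
  refine ⟨b p0 p0, ?_⟩
  ext q p
  rw [Matrix.smul_apply, smul_eq_mul]
  by_cases e : q = p
  · subst e
    by_cases hq : J.vt q = i
    · rw [e_self hq, mul_one]
      exact hT.diag b hb.1 q p0 (hq.trans h0.symm)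
    · rw [J.e_neg q hq, mul_zero]
      by_contra h
      exact hq (hb.2 q q h).1
  · rw [J.e_off i e, mul_zero]
    by_contra h
    exact e (hT.dist q p ((hb.2 q p h).2.trans (hb.2 q p h).1.symm) (J.peak b hb.1 q p h))

theorem rank_self (hT : ThinDir J L) (i : ι) : finrank F (HF hT.scal i i) = 1 := by
  obtain ⟨p0, h0⟩ := hT.surj i
  have e : HF hT.scal i i = Submodule.span F {J.e i} := by
    refine le_antisymm (fun b hb => ?_) (Submodule.span_le.2 ?_)
    · obtain ⟨c, rfl⟩ := scalar hT hb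
      exact Submodule.smul_mem _ c (Submodule.mem_span_singleton_self _)
    · rintro _ rfl
      exact ⟨J.e_mem i, e_In i⟩
  rw [e]
  refine finrank_span_singleton fun h => ?_
  have := e_self h0
  rw [h] at this
  exact zero_ne_one this

theorem dir (hT : ThinDir J L) : Dir J := by
  refine ⟨hT.surj, hT.rk, fun i b hb h0 => ?_⟩
  obtain ⟨c, rfl⟩ := scalar hT hb
  have hc : c ≠ 0 := fun e => h0 (by rw [e, zero_smul])
  refine ⟨c⁻¹ • J.e i, (HF hT.scal i i).smul_mem _ (show J.e i ∈ J.H i i from ⟨J.e_mem i, e_In i⟩), ?_⟩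
  rw [smul_mul_smul_comm, inv_mul_cancel₀ hc, one_smul, e_mul]

theorem rank_ne (hs : ∀ (c : F), ∀ b ∈ J.B, c • b ∈ J.B) (i j : ι) :
    finrank F (HF hs i j) ≠ 0 ↔ ∃ b ∈ J.B, ∃ q p, J.vt p = i ∧ J.vt q = j ∧ b q p ≠ 0 := by
  rw [Ne, Submodule.finrank_eq_zero, ← Ne, Submodule.ne_bot_iff]
  constructor
  · rintro ⟨b, hb, h0⟩
    obtain ⟨q, p, h⟩ : ∃ q p, b q p ≠ 0 := by
      by_contra hc
      push Not at hc
      exact h0 (Matrix.ext hc)
    exact ⟨b, hb.1, q, p, (hb.2 q p h).1, (hb.2 q p h).2, h⟩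
  · rintro ⟨b, hb, q, p, hp, hq, h⟩
    refine ⟨J.blk i j b, J.blk_mem hb i j, fun e => h ?_⟩
    rw [← J.blk_pos b hp hq, e]
    rfl

variable [FiniteDimensional k F]

theorem g_vv (hT : ThinDir J L) (i j : ι) : gram J (.inl i) (.inl j) =
    (finrank F (HF hT.scal i j) : ℤ) + finrank F (HF hT.scal j i) := by
  have hf : 0 < finrank k F := finrank_pos
  rw [gram]
  split_ifs with h
  · subst h
    rw [rank_self hT]
    rfl
  · rw [rank_H hT.scal, rank_H hT.scal, Nat.mul_div_cancel_left _ hf, Nat.mul_div_cancel_left _ hf]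
    push_cast
    rfl

theorem g_vp (i : ι) (o : Ω) :
    gram J (.inl i) (.inr o) = -1 ↔ ∃ p, J.vt p = i ∧ J.pk p = o := by
  rw [gram]
  split_ifs with h
  · exact iff_of_true rfl h
  · exact iff_of_false (by decide) h

theorem g_pv (i : ι) (o : Ω) : gram J (.inr o) (.inl i) = gram J (.inl i) (.inr o) := rfl

open Classical in
theorem g_sum (hT : ThinDir J L) (i : ι) (o : Ω) : gram J (.inl i) (.inr o) =
    -∑ p, if J.vt p = i ∧ J.pk p = o then (1 : ℤ) else 0 := by
  rw [gram]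
  split_ifs with h
  · obtain ⟨p, hp⟩ := h
    rw [Finset.sum_eq_single p, if_pos hp]
    · intro q _ hq
      exact if_neg fun h => hq (hT.dist q p (h.1.trans hp.1.symm) (h.2.trans hp.2.symm))
    · simp
  · rw [Finset.sum_eq_zero fun p _ => if_neg fun hp => h ⟨p, hp⟩, neg_zero]

variable [Fintype ι] [Fintype Ω]

theorem cross (hT : ThinDir J L) (d : ι → ℤ) (v : Ω → ℤ) :
    ∑ i, ∑ o, d i * gram J (.inl i) (.inr o) * v o = -∑ p, d (J.vt p) * v (J.pk p) := by
  classical
  have e : ∀ i o, d i * gram J (.inl i) (.inr o) * v o =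
      ∑ p, -(if J.vt p = i then (if J.pk p = o then d i * v o else 0) else 0) := by
    intro i o
    rw [g_sum hT, ← Finset.sum_neg_distrib, Finset.mul_sum, Finset.sum_mul]
    refine Finset.sum_congr rfl fun p _ => ?_
    by_cases h1 : J.vt p = i <;> by_cases h2 : J.pk p = o <;> simp [h1, h2]
  simp only [e]
  rw [← Finset.sum_neg_distrib]
  calc _ = ∑ i, ∑ p, ∑ o, -(if J.vt p = i then (if J.pk p = o then d i * v o else 0) else 0) :=
        Finset.sum_congr rfl fun i _ => Finset.sum_comm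
    _ = ∑ p, ∑ i, ∑ o, -(if J.vt p = i then (if J.pk p = o then d i * v o else 0) else 0) :=
        Finset.sum_comm
    _ = _ := Finset.sum_congr rfl fun p _ => by
        rw [Finset.sum_eq_single (J.vt p) (fun i _ hi => by simp [hi.symm]) (by simp)]
        simp

theorem bil_eq (hT : ThinDir J L) (d : ι → ℕ) (v : Ω → ℕ) :
    bil (gram J) (vec d v) (vec d v) = 2 * ((∑ o, v o ^ 2 : ℕ) : ℤ) +
      2 * ((∑ i, ∑ j, d i * d j * finrank F (HF hT.scal i j) : ℕ) : ℤ) -
      2 * ((∑ p, d (J.vt p) * v (J.pk p) : ℕ) : ℤ) := by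
  classical
  have c1 := cross hT (fun i => (d i : ℤ)) fun o => (v o : ℤ)
  have c2 : ∑ o, ∑ i, (v o : ℤ) * gram J (.inr o) (.inl i) * d i =
      ∑ i, ∑ o, (d i : ℤ) * gram J (.inl i) (.inr o) * v o := by
    rw [Finset.sum_comm]
    exact Finset.sum_congr rfl fun i _ => Finset.sum_congr rfl fun o _ => by rw [g_pv]; ring
  have c3 : ∑ o, ∑ o', (v o : ℤ) * gram J (.inr o) (.inr o') * v o' = 2 * ∑ o, (v o : ℤ) ^ 2 := by
    rw [Finset.mul_sum]
    refine Finset.sum_congr rfl fun o _ => ?_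
    rw [Finset.sum_eq_single o (fun o' _ h => by rw [gram, if_neg h.symm]; ring) (by simp), gram,
      if_pos rfl]
    ring
  have c4 : ∑ i, ∑ j, (d i : ℤ) * gram J (.inl i) (.inl j) * d j =
      2 * ∑ i, ∑ j, (d i : ℤ) * d j * finrank F (HF hT.scal i j) := by
    have e : ∑ i, ∑ j, (d i : ℤ) * d j * finrank F (HF hT.scal j i) =
        ∑ i, ∑ j, (d i : ℤ) * d j * finrank F (HF hT.scal i j) := by
      rw [Finset.sum_comm]
      exact Finset.sum_congr rfl fun i _ => Finset.sum_congr rfl fun j _ => by ring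
    rw [two_mul]
    nth_rewrite 2 [← e]
    rw [← Finset.sum_add_distrib]
    refine Finset.sum_congr rfl fun i _ => ?_
    rw [← Finset.sum_add_distrib]
    exact Finset.sum_congr rfl fun j _ => by rw [g_vv hT]; ring
  unfold bil
  simp only [Fintype.sum_sum_type, vec, Sum.elim_inl, Sum.elim_inr, Finset.sum_add_distrib]
  rw [c2, c3, c4, c1]
  push_cast
  ring

theorem form (hT : ThinDir J L) (d : ι → ℕ) (v : Ω → ℕ) :
    bil (gram J) (vec d v) (vec d v) * finrank k F +
      2 * ((∑ p, d (J.vt p) * v (J.pk p)) * finrank k F : ℕ) =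
      2 * ((∑ o, v o ^ 2) * finrank k F + ∑ i, ∑ j, d i * d j * finrank k (J.H i j) : ℕ) := by
  have e : ∑ i, ∑ j, d i * d j * finrank k (J.H i j) =
      (∑ i, ∑ j, d i * d j * finrank F (HF hT.scal i j)) * finrank k F := by
    rw [Finset.sum_mul]
    refine Finset.sum_congr rfl fun i _ => ?_
    rw [Finset.sum_mul]
    exact Finset.sum_congr rfl fun j _ => by rw [rank_H hT.scal]; ring
  rw [bil_eq hT, e, Nat.cast_add, Nat.cast_mul, Nat.cast_mul, Nat.cast_mul]
  ring

theorem uform (hT : ThinDir J L) (hW : J.WP) : UForm (gram J) := by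
  have hf : (0 : ℤ) < finrank k F := by exact_mod_cast (finrank_pos : 0 < finrank k F)
  refine ⟨?_, ?_, ?_, ?_, ?_, ?_, ?_⟩
  · rintro (i | o) (j | o')
    · rw [g_vv hT, g_vv hT, add_comm]
    · rfl
    · rfl
    · rw [gram, gram]
      by_cases h : o = o'
      · rw [if_pos h, if_pos h.symm]
      · rw [if_neg h, if_neg (Ne.symm h)]
  · rintro (i | o) <;> rw [gram, if_pos rfl]
  · intro o o' h
    rw [gram, if_neg h]
  · intro i o
    rw [gram]
    split_ifs <;> simp
  · intro i j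
    rw [g_vv hT]
    positivity
  · intro i j _ h
    rw [g_vv hT] at h
    by_cases h1 : finrank F (HF hT.scal i j) = 0
    · obtain ⟨b, hb, q, p, hp, hq, h0⟩ := (rank_ne hT.scal j i).1 fun e => h (by rw [h1, e]; rfl)
      exact ⟨J.pk p, (g_vp _ _).2 ⟨q, hq, J.peak b hb q p h0⟩, (g_vp _ _).2 ⟨p, hp, rfl⟩⟩
    · obtain ⟨b, hb, q, p, hp, hq, h0⟩ := (rank_ne hT.scal i j).1 h1
      exact ⟨J.pk p, (g_vp _ _).2 ⟨p, hp, rfl⟩, (g_vp _ _).2 ⟨q, hq, J.peak b hb q p h0⟩⟩
  · intro x hx h0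
    obtain ⟨d, v, rfl⟩ : ∃ d v, x = vec d v := by
      refine ⟨fun i => (x (.inl i)).toNat, fun o => (x (.inr o)).toNat, funext ?_⟩
      rintro (i | o)
      · exact (Int.toNat_of_nonneg (hx _)).symm
      · exact (Int.toNat_of_nonneg (hx _)).symm
    have h1 : d ≠ 0 ∨ v ≠ 0 := by
      by_contra hc
      push Not at hc
      refine h0 (funext ?_)
      rintro (i | o) <;> simp [vec, hc.1, hc.2]
    have h2 := Int.ofNat_lt.2 (hW d v h1)
    have h3 := form hT d v
    exact (mul_pos_iff_of_pos_right hf).1 (by linarith)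

theorem nopath (hT : ThinDir J L) : GNoPath (gram J) L := by
  intro Y o h
  have ex : ∀ (i : ι) (w : Ω), ∃ p, gram J (.inl i) (.inr w) = -1 → J.vt p = i ∧ J.pk p = w := by
    intro i w
    by_cases e : gram J (.inl i) (.inr w) = -1
    · obtain ⟨p, hp⟩ := (g_vp i w).1 e
      exact ⟨p, fun _ => hp⟩
    · obtain ⟨p, -⟩ := hT.surj i
      exact ⟨p, fun h => absurd h e⟩
  choose s hs using ex
  refine hT.path (fun m => s (Y m) (o m)) (fun m => s (Y m) (o (m + 1))) fun m hm => ?_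
  obtain ⟨h1, h2, h3, h4, h5⟩ := h m hm
  obtain ⟨a1, a2⟩ := hs _ _ h1
  obtain ⟨b1, b2⟩ := hs _ _ h2
  obtain ⟨c1, c2⟩ := hs _ _ h5
  rw [g_vv hT] at h4
  refine ⟨a1.trans b1.symm, fun e => h3 (a2.symm.trans ((congrArg J.pk e).trans b2)),
    b2.trans c2.symm, fun e => ?_, ?_, ?_⟩
  · have e' : Y m = Y (m + 1) := b1.symm.trans ((congrArg J.vt e).trans c1)
    rw [← e', rank_self hT] at h4
    omega
  · rintro ⟨-, b, hb, h0⟩
    have := (rank_ne hT.scal _ _).2 ⟨b, hb, _, _, b1, c1, h0⟩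
    omega
  · rintro ⟨-, b, hb, h0⟩
    have := (rank_ne hT.scal _ _).2 ⟨b, hb, _, _, c1, b1, h0⟩
    omega

end GramA

open GramA in
theorem gram' : SGram := by
  intro k F _ _ _ _ Pt ι Ω _ _ _ _ J L hT hW
  have hf : (0 : ℤ) < finrank k F := by exact_mod_cast (finrank_pos : 0 < finrank k F)
  refine ⟨uform hT hW, nopath hT, ?_, fun d v h => ?_, fun i => ?_, dir hT, form hT⟩
  · rintro c o o' ⟨f, h0, h1, h2⟩
    refine ⟨f, h0, h1, fun n hn => (h2 n hn).imp id ?_⟩
    rintro ⟨i, a, b⟩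
    obtain ⟨p, hp⟩ := (g_vp _ _).1 a
    obtain ⟨q, hq⟩ := (g_vp _ _).1 b
    exact ⟨p, q, hp.1.trans hq.1.symm, hp.2, hq.2⟩
  · have h3 := form hT d v
    unfold Prob.Root at h
    rw [← h, Nat.cast_add] at h3
    exact mul_right_cancel₀ hf.ne' (by linarith)
  · rw [rank_H hT.scal, rank_self hT, mul_one]

end Pool.Agent.MP_bd94e8_al.H89
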